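import Mathlib

/-!
# The inequality of Turan
-/

set_option autoImplicit false
set_option linter.unusedVariables false

open scoped Classical
open Finset

namespace Pool.Agent.D0H69.OD

/-- the second moment method -/
theorem turan {α β : Type} (T : Finset α) (S : Finset β) (r : β → α → Prop) (w : β → ℝ) (N : ℝ)
    (hN : 0 ≤ N) (hT : (T.card : ℝ) = N)
    (h1 : ∀ p ∈ S, ((T.filter fun f => r p f).card : ℝ) = N * w p)
    (h2 : ∀ p ∈ S, ∀ p' ∈ S, p ≠ p' →
      ((T.filter fun f => r p f ∧ r p' f).card : ℝ) ≤ N * (w p * w p'))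
    (R : ℕ) (hR : (R : ℝ) ≤ ∑ p ∈ S, w p) :
    ((T.filter fun f => (S.filter fun p => r p f).card < R).card : ℝ) * (∑ p ∈ S, w p - R) ^ 2 ≤
      N * ∑ p ∈ S, w p := by
  set μ := ∑ p ∈ S, w p with hμ
  have e : ∀ f, ((S.filter fun p => r p f).card : ℝ) = ∑ p ∈ S, (if r p f then (1 : ℝ) else 0) := by
    intro f
    rw [Finset.sum_boole]
  have e1 : ∀ p, ((T.filter fun f => r p f).card : ℝ) = ∑ f ∈ T, (if r p f then (1 : ℝ) else 0) := by
    intro p
    rw [Finset.sum_boole]
  have e2 : ∀ p p', ((T.filter fun f => r p f ∧ r p' f).card : ℝ) =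
      ∑ f ∈ T, (if r p f then (1 : ℝ) else 0) * (if r p' f then (1 : ℝ) else 0) := by
    intro p p'
    rw [← Finset.sum_boole]
    refine Finset.sum_congr rfl fun f _ => ?_
    by_cases ha : r p f <;> by_cases hb : r p' f <;> simp [ha, hb]
  have hX : ∑ f ∈ T, ((S.filter fun p => r p f).card : ℝ) = N * μ := by
    simp only [e]
    rw [Finset.sum_comm, hμ, Finset.mul_sum]
    refine Finset.sum_congr rfl fun p hp => ?_
    rw [← e1, h1 p hp]
  have hX2 : ∑ f ∈ T, ((S.filter fun p => r p f).card : ℝ) ^ 2 ≤ N * μ ^ 2 + N * μ := by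
    have h3 : ∑ f ∈ T, ((S.filter fun p => r p f).card : ℝ) ^ 2 =
        ∑ p ∈ S, ∑ p' ∈ S, ((T.filter fun f => r p f ∧ r p' f).card : ℝ) := by
      simp only [e, e2, pow_two, Finset.sum_mul_sum]
      rw [Finset.sum_comm]
      refine Finset.sum_congr rfl fun p _ => ?_
      rw [Finset.sum_comm]
    have hw : ∀ p ∈ S, 0 ≤ N * w p := fun p hp => by
      rw [← h1 p hp]
      exact Nat.cast_nonneg _
    have h4 : ∀ p ∈ S, ∀ p' ∈ S, ((T.filter fun f => r p f ∧ r p' f).card : ℝ) ≤
        N * (w p * w p') + (if p = p' then N * w p else 0) := by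
      intro p hp p' hp'
      by_cases hpp : p = p'
      · subst hpp
        rw [if_pos rfl]
        simp only [and_self]
        rw [h1 p hp]
        have h5 : 0 ≤ N * (w p * w p) := mul_nonneg hN (mul_self_nonneg _)
        linarith
      · rw [if_neg hpp, add_zero]
        exact h2 p hp p' hp' hpp
    rw [h3]
    calc ∑ p ∈ S, ∑ p' ∈ S, ((T.filter fun f => r p f ∧ r p' f).card : ℝ) ≤
        ∑ p ∈ S, ∑ p' ∈ S, (N * (w p * w p') + (if p = p' then N * w p else 0)) :=
          Finset.sum_le_sum fun p hp => Finset.sum_le_sum fun p' hp' => h4 p hp p' hp'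
      _ = N * μ ^ 2 + N * μ := by
          simp only [Finset.sum_add_distrib]
          congr 1
          · rw [pow_two, hμ, Finset.sum_mul_sum, Finset.mul_sum]
            refine Finset.sum_congr rfl fun p _ => ?_
            rw [Finset.mul_sum]
          · rw [hμ, Finset.mul_sum]
            refine Finset.sum_congr rfl fun p hp => ?_
            rw [Finset.sum_ite_eq, if_pos hp]
  have hV : ∑ f ∈ T, (μ - ((S.filter fun p => r p f).card : ℝ)) ^ 2 ≤ N * μ := by
    have h6 : ∑ f ∈ T, (μ - ((S.filter fun p => r p f).card : ℝ)) ^ 2 =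
        (T.card : ℝ) * μ ^ 2 - 2 * μ * ∑ f ∈ T, ((S.filter fun p => r p f).card : ℝ) +
          ∑ f ∈ T, ((S.filter fun p => r p f).card : ℝ) ^ 2 := by
      rw [Finset.mul_sum, ← nsmul_eq_mul, ← Finset.sum_const, ← Finset.sum_sub_distrib,
        ← Finset.sum_add_distrib]
      refine Finset.sum_congr rfl fun f _ => ?_
      ring
    rw [h6, hX, hT]
    nlinarith [hX2]
  refine le_trans ?_ hV
  rw [← nsmul_eq_mul, ← Finset.sum_const]
  calc ∑ f ∈ T.filter fun f => (S.filter fun p => r p f).card < R, (μ - (R : ℝ)) ^ 2 ≤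
      ∑ f ∈ T.filter fun f => (S.filter fun p => r p f).card < R,
        (μ - ((S.filter fun p => r p f).card : ℝ)) ^ 2 := by
        refine Finset.sum_le_sum fun f hf => ?_
        have h7 : ((S.filter fun p => r p f).card : ℝ) < R := by
          exact_mod_cast (Finset.mem_filter.1 hf).2
        have h8 : 0 ≤ μ - R := by linarith
        nlinarith
    _ ≤ _ := Finset.sum_le_sum_of_subset_of_nonneg (Finset.filter_subset _ _)
        fun f _ _ => sq_nonneg _

end Pool.Agent.D0H69.OD
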