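import Pool.Agent.D0H99.OD.Stm6
import Pool.Agent.D0H41.OD.A0
import Pool.Agent.D0H41.OD.A3
import Pool.Agent.D0H69.OD.Tur

/-!
# OD4, A4: almost all monic polynomials have many prime factors
-/

set_option autoImplicit false
set_option linter.unusedVariables false

open scoped Classical
open Polynomial Finset

namespace Pool.Agent.D0H69.OD

open Pool.Agent.D0H99.OD
open Pool.Agent.Y164.PS (Pr mem_Pr card_Pr_ge)

/-- the harmonic series -/
theorem harm (a : ℕ) (B : ℝ) : ∃ Y : ℕ, a ≤ Y ∧ B ≤ ∑ n ∈ Ioc a Y, 1 / (2 * (n : ℝ)) := by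
  have h1 := Real.tendsto_sum_range_one_div_nat_succ_atTop
  have h2 := (Filter.tendsto_atTop.1 h1
    (2 * B + ∑ i ∈ range a, 1 / ((i : ℝ) + 1))).and (Filter.eventually_ge_atTop a)
  obtain ⟨Y, hY, haY⟩ := h2.exists
  refine ⟨Y, haY, ?_⟩
  have h3 : ∑ i ∈ range Y, 1 / ((i : ℝ) + 1) = ∑ i ∈ range a, 1 / ((i : ℝ) + 1) +
      ∑ n ∈ Ioc a Y, 1 / (n : ℝ) := by
    have h4 : ∑ n ∈ Ioc a Y, 1 / (n : ℝ) = ∑ i ∈ Ico a Y, 1 / ((i : ℝ) + 1) := by
      have h5 : Ioc a Y = (Ico a Y).image fun i => i + 1 := by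
        ext n
        simp only [mem_Ioc, mem_image, mem_Ico]
        constructor
        · rintro ⟨h6, h7⟩
          exact ⟨n - 1, ⟨by omega, by omega⟩, by omega⟩
        · rintro ⟨i, ⟨h6, h7⟩, rfl⟩
          omega
      rw [h5, Finset.sum_image (fun x _ y _ h => by simpa using h)]
      refine Finset.sum_congr rfl fun i _ => ?_
      push_cast
      ring
    rw [h4, Finset.range_eq_Ico, Finset.range_eq_Ico, Finset.sum_Ico_consecutive _ (Nat.zero_le a) haY]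
  rw [h3] at hY
  have h8 : ∑ n ∈ Ioc a Y, 1 / (2 * (n : ℝ)) = (∑ n ∈ Ioc a Y, 1 / (n : ℝ)) / 2 := by
    rw [Finset.sum_div]
    refine Finset.sum_congr rfl fun n _ => ?_
    rw [one_div, one_div, mul_inv]
    ring
  rw [h8]
  linarith

/-- the prime polynomials of degree in `(a, Y]` -/
noncomputable def SP (k : Type) [Field k] [Fintype k] (a Y : ℕ) : Finset k[X] :=
  (Ioc a Y).biUnion fun n => Pr k n

theorem mem_SP {k : Type} [Field k] [Fintype k] {a Y : ℕ} {P : k[X]} :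
    P ∈ SP k a Y ↔ P.Monic ∧ Irreducible P ∧ a < P.natDegree ∧ P.natDegree ≤ Y := by
  unfold SP
  rw [mem_biUnion]
  constructor
  · rintro ⟨n, hn, hP⟩
    obtain ⟨h1, h2, rfl⟩ := mem_Pr.1 hP
    rw [mem_Ioc] at hn
    exact ⟨h1, h2, hn.1, hn.2⟩
  · rintro ⟨h1, h2, h3, h4⟩
    exact ⟨P.natDegree, mem_Ioc.2 ⟨h3, h4⟩, mem_Pr.2 ⟨h1, h2, rfl⟩⟩

theorem pow_ge {q : ℝ} (hq : 3 ≤ q) {n : ℕ} (hn : 3 ≤ n) : 4 ≤ (Real.sqrt q) ^ n := by
  have h1 : (1.73 : ℝ) ≤ Real.sqrt q := by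
    apply Real.le_sqrt_of_sq_le
    norm_num
    linarith
  calc (4 : ℝ) ≤ 1.73 ^ 3 := by norm_num
    _ ≤ 1.73 ^ n := pow_le_pow_right₀ (by norm_num) hn
    _ ≤ _ := pow_le_pow_left₀ (by norm_num) h1 n

theorem card_ge_three {k : Type} [Field k] [Fintype k] (hk : ringChar k ≠ 2) :
    (3 : ℝ) ≤ Fintype.card k := by
  have h1 : 2 ≤ Fintype.card k := Fintype.one_lt_card
  have h2 : Fintype.card k ≠ 2 := by
    intro h
    apply hk
    haveI : CharP k 2 := by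
      obtain ⟨p, hp⟩ := CharP.exists k
      haveI := hp
      obtain ⟨n, hp', hn⟩ := FiniteField.card k p
      rw [h] at hn
      have h3 : p ∣ 2 := hn ▸ dvd_pow_self p n.ne_zero
      have h4 : p = 2 := (Nat.prime_dvd_prime_iff_eq hp' Nat.prime_two).1 h3
      rw [← h4]
      exact hp
    exact ringChar.eq k 2
  exact_mod_cast (by omega : 3 ≤ Fintype.card k)

/-- the mean is large -/
theorem mean_ge {k : Type} [Field k] [Fintype k] (hk : ringChar k ≠ 2) {a Y : ℕ} (ha : 3 ≤ a) :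
    ∑ n ∈ Ioc a Y, 1 / (2 * (n : ℝ)) ≤ ∑ P ∈ SP k a Y, ((Fintype.card k : ℝ) ^ P.natDegree)⁻¹ := by
  have hq := card_ge_three hk
  unfold SP
  rw [Finset.sum_biUnion]
  · refine Finset.sum_le_sum fun n hn => ?_
    rw [mem_Ioc] at hn
    have h1 := card_Pr_ge (k := k) hk n (by omega)
    have h2 := pow_ge hq (n := n) (by omega)
    have hn0 : (0 : ℝ) < n := by exact_mod_cast (by omega : 0 < n)
    have hqn : (Fintype.card k : ℝ) ^ n = (Real.sqrt (Fintype.card k)) ^ n * (Real.sqrt (Fintype.card k)) ^ n := by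
      rw [← mul_pow, Real.mul_self_sqrt (by linarith)]
    have h3 : ∑ P ∈ Pr k n, ((Fintype.card k : ℝ) ^ P.natDegree)⁻¹ =
        (Pr k n).card * ((Fintype.card k : ℝ) ^ n)⁻¹ := by
      rw [Finset.sum_congr rfl fun P hP => by rw [(mem_Pr.1 hP).2.2], sum_const, nsmul_eq_mul]
    rw [h3]
    have hpos : (0 : ℝ) < (Fintype.card k : ℝ) ^ n := pow_pos (by linarith) n
    rw [← div_eq_mul_inv, div_le_div_iff₀ (by positivity) hpos]
    nlinarith
  · intro n _ m _ hnm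
    rw [Function.onFun, Finset.disjoint_left]
    intro P hP hP'
    exact hnm ((mem_Pr.1 hP).2.2.symm.trans (mem_Pr.1 hP').2.2)

theorem fin_PD {k : Type} [Field k] [Fintype k] {D : ℕ} {f : k[X]} (hf : f ∈ MO k D) (a : ℕ) :
    {P ∈ PD f | a < P.natDegree}.Finite := by
  obtain ⟨h1, h2⟩ := Pool.Agent.D0H41.OD.mem_MO.1 hf
  refine ((range (D + 1)).biUnion fun n => MO k n).finite_toSet.subset ?_
  rintro P ⟨⟨h3, h4, h5⟩, -⟩
  rw [mem_coe, mem_biUnion]
  refine ⟨P.natDegree, ?_, Pool.Agent.D0H41.OD.mem_MO.2 ⟨h3, rfl⟩⟩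
  rw [mem_range, ← h2]
  exact Nat.lt_succ_of_le (natDegree_le_of_dvd h5 h1.ne_zero)

theorem t_A4 : S_A0 → S_A4 := by
  intro hA0 k _ _ hk n0 R η hη
  obtain ⟨Y, haY, hY⟩ := harm (max n0 3) (2 * R + 4 / η + 1)
  have hm := mean_ge (k := k) hk (a := max n0 3) (Y := Y) (le_max_right _ _)
  set S := SP k (max n0 3) Y with hS
  set μ := ∑ P ∈ S, ((Fintype.card k : ℝ) ^ P.natDegree)⁻¹ with hμ
  have hq := card_ge_three hk
  have hη4 : 0 < 4 / η := by positivity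
  have hR0 : (0 : ℝ) ≤ R := Nat.cast_nonneg _
  have hμ1 : 2 * R + 4 / η + 1 ≤ μ := hY.trans hm
  refine ⟨2 * Y, fun D hD => ?_⟩
  obtain ⟨g1, g2, g3⟩ := hA0 k D
  have hcard : ∀ E : k[X], E.Monic → E.natDegree ≤ D →
      (((MO k D).filter fun f => E ∣ f).card : ℝ) =
        (Fintype.card k : ℝ) ^ D * ((Fintype.card k : ℝ) ^ E.natDegree)⁻¹ := by
    intro E hE hED
    rw [g3 E hE, if_pos hED]
    push_cast
    rw [pow_sub₀ _ (by linarith) hED]
  have ht := turan (MO k D) S (fun P f => P ∣ f) (fun P => ((Fintype.card k : ℝ) ^ P.natDegree)⁻¹)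
    ((Fintype.card k : ℝ) ^ D) (by positivity) (by rw [g2]; push_cast; ring)
    (fun P hP => by
      obtain ⟨h1, h2, h3, h4⟩ := mem_SP.1 hP
      exact hcard P h1 (by omega))
    (fun P hP Q hQ hPQ => by
      obtain ⟨h1, h2, h3, h4⟩ := mem_SP.1 hP
      obtain ⟨k1, k2, k3, k4⟩ := mem_SP.1 hQ
      have hcop := Pool.Agent.D0H41.OD.cop h1 h2 k1 k2 hPQ
      have h5 : ((MO k D).filter fun f => P ∣ f ∧ Q ∣ f) = (MO k D).filter fun f => P * Q ∣ f := by
        refine Finset.filter_congr fun f _ => ⟨fun h => hcop.mul_dvd h.1 h.2, fun h =>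
          ⟨(dvd_mul_right _ _).trans h, (dvd_mul_left _ _).trans h⟩⟩
      rw [h5, hcard (P * Q) (h1.mul k1) (by rw [h1.natDegree_mul k1]; omega), h1.natDegree_mul k1,
        pow_add, mul_inv])
    R (by linarith)
  have h6 : {f ∈ (MO k D : Set k[X]) | {P ∈ PD f | n0 < P.natDegree}.ncard < R}.ncard ≤
      ((MO k D).filter fun f => (S.filter fun P => P ∣ f).card < R).card := by
    rw [← Set.ncard_coe_finset]
    refine Set.ncard_le_ncard ?_ (Finset.finite_toSet _)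
    rintro f ⟨hf, hf2⟩
    rw [mem_coe, mem_filter]
    refine ⟨hf, lt_of_le_of_lt ?_ hf2⟩
    rw [← Set.ncard_coe_finset]
    refine Set.ncard_le_ncard ?_ (fin_PD hf n0)
    intro P hP
    rw [mem_coe, mem_filter] at hP
    obtain ⟨h1, h2, h3, h4⟩ := mem_SP.1 hP.1
    exact ⟨⟨h1, h2, hP.2⟩, lt_of_le_of_lt (le_max_left _ _) h3⟩
  have h7 : ({f ∈ (MO k D : Set k[X]) | {P ∈ PD f | n0 < P.natDegree}.ncard < R}.ncard : ℝ) ≤
      (((MO k D).filter fun f => (S.filter fun P => P ∣ f).card < R).card : ℝ) := by exact_mod_cast h6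
  refine h7.trans ?_
  have hqD : (0 : ℝ) < (Fintype.card k : ℝ) ^ D := pow_pos (by linarith) D
  have hμpos : 0 < μ := by linarith
  have h8 : μ / 2 ≤ μ - R := by linarith
  have h9 : μ ^ 2 / 4 ≤ (μ - R) ^ 2 := by nlinarith
  have h10 : 4 / η ≤ μ := by linarith
  have h11 : 4 ≤ η * μ := by
    rw [div_le_iff₀ hη] at h10
    linarith
  set Z : ℝ := (((MO k D).filter fun f => (S.filter fun P => P ∣ f).card < R).card : ℝ) with hZ
  have hZ0 : 0 ≤ Z := Nat.cast_nonneg _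
  have h12 : Z * (μ ^ 2 / 4) ≤ (Fintype.card k : ℝ) ^ D * μ :=
    (mul_le_mul_of_nonneg_left h9 hZ0).trans ht
  have h13 : Z * μ ≤ 4 * (Fintype.card k : ℝ) ^ D := by
    have h14 : (Z * μ) * μ ≤ (4 * (Fintype.card k : ℝ) ^ D) * μ := by nlinarith
    exact le_of_mul_le_mul_right h14 hμpos
  have h15 : Z * μ ≤ (η * (Fintype.card k : ℝ) ^ D) * μ := by nlinarith
  exact le_of_mul_le_mul_right h15 hμpos

end Pool.Agent.D0H69.OD
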